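import Mathlib

set_option maxHeartbeats 400000

namespace Pool.Agent.Results.MP_6bd626_an.GL2

/-- real Lipschitz functions on X vanishing at 0 -/
def Lip0 (X : Type) [NormedAddCommGroup X] : Submodule ℝ (X → ℝ) where
  carrier := {f | f 0 = 0 ∧ ∃ K, LipschitzWith K f}
  add_mem' := fun {f g} hf hg => ⟨by simp [hf.1, hg.1], by
    obtain ⟨K, hK⟩ := hf.2
    obtain ⟨L, hL⟩ := hg.2
    exact ⟨K + L, hK.add hL⟩⟩
  zero_mem' := ⟨rfl, 0, LipschitzWith.const 0⟩
  smul_mem' := fun c f hf => ⟨by simp [hf.1], by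
    obtain ⟨K, hK⟩ := hf.2
    exact ⟨_, (lipschitzWith_smul c).comp hK⟩⟩

/-- the G-equivariant dual lifting property of X for the action ρ -/
def DualLift {G X : Type} [Group G] [NormedAddCommGroup X] [NormedSpace ℝ X]
    (ρ : G →* (X ≃L[ℝ] X)) : Prop :=
  ∃ P : Lip0 X →ₗ[ℝ] (X →L[ℝ] ℝ),
    (∃ C : ℝ, ∀ (f : Lip0 X) (K : NNReal), LipschitzWith K f.1 → ‖P f‖ ≤ C * K) ∧
    (∀ (l : X →L[ℝ] ℝ) (f : Lip0 X), f.1 = l → P f = l) ∧
    ∀ (g : G) (f f' : Lip0 X), f'.1 = f.1 ∘ ρ g⁻¹ → ∀ x, P f' x = P f (ρ g⁻¹ x)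

abbrev X : Type := ℝ × ℝ

noncomputable def T : Lip0 X := ⟨fun p => max 0 (max p.1 p.2) + min 0 (min p.1 p.2), by simp, _,
  ((LipschitzWith.const 0).max (LipschitzWith.prod_fst.max LipschitzWith.prod_snd)).add
    ((LipschitzWith.const 0).min (LipschitzWith.prod_fst.min LipschitzWith.prod_snd))⟩

noncomputable def Tg (g : X ≃L[ℝ] X) : Lip0 X := ⟨T.1 ∘ g, by simp [T], by
  obtain ⟨K, hK⟩ := T.2.2
  exact ⟨_, hK.comp g.lipschitz⟩⟩

noncomputable def L (l : X →L[ℝ] ℝ) : Lip0 X := ⟨l, map_zero l, _, l.lipschitz⟩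

noncomputable def mat (a b c d : ℝ) (h : a * d - b * c ≠ 0) : X ≃L[ℝ] X :=
  LinearEquiv.toContinuousLinearEquiv
    { toFun := fun p => (a * p.1 + b * p.2, c * p.1 + d * p.2)
      invFun := fun p => ((d * p.1 - b * p.2) / (a * d - b * c), (a * p.2 - c * p.1) / (a * d - b * c))
      map_add' := fun p q => by ext <;> simp <;> ring
      map_smul' := fun r p => by ext <;> simp <;> ring
      left_inv := fun p => by ext <;> simp only <;> rw [div_eq_iff h] <;> ring
      right_inv := fun p => by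
        ext <;> simp only <;> rw [mul_div_assoc', mul_div_assoc', ← add_div, div_eq_iff h] <;> ring }

lemma mat_apply (a b c d : ℝ) (h : a * d - b * c ≠ 0) (p : X) :
    mat a b c d h p = (a * p.1 + b * p.2, c * p.1 + d * p.2) := rfl

lemma key (a b m : ℝ) (hm : m = 1 / 2 * a + 1 / 2 * b) :
    max 0 (max a b) + min 0 (min a b) + 1 / 2 * (a + b) =
      (max 0 (max a m) + min 0 (min a m)) + (max 0 (max m b) + min 0 (min m b)) := by
  have := max_add_min 0 m
  rcases le_total a b with h | h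
  · rw [max_eq_right h, min_eq_left h, max_eq_right (by linarith : a ≤ m),
      min_eq_left (by linarith : a ≤ m), max_eq_right (by linarith : m ≤ b),
      min_eq_left (by linarith : m ≤ b)]
    linarith
  · rw [max_eq_left h, min_eq_right h, max_eq_left (by linarith : m ≤ a),
      min_eq_right (by linarith : m ≤ a), max_eq_left (by linarith : b ≤ m),
      min_eq_right (by linarith : b ≤ m)]
    linarith

theorem result :
    ∃ (G : Type) (_ : Group G) (X : Type) (_ : NormedAddCommGroup X) (_ : NormedSpace ℝ X)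
      (_ : CompleteSpace X) (ρ : G →* (X ≃L[ℝ] X)), ¬ DualLift ρ := by
  refine ⟨X ≃L[ℝ] X, inferInstance, X, inferInstance, inferInstance, inferInstance,
    MonoidHom.id _, fun ⟨P, _, h1, h2⟩ => ?_⟩
  have e : ∀ g x, P (Tg g) x = P T (g x) := fun g x => by
    simpa using h2 g⁻¹ T (Tg g) (by simp [Tg]) x
  have l : ∀ k, P (L k) = k := fun k => h1 k _ rfl
  set x := ContinuousLinearMap.fst ℝ ℝ ℝ with hx
  set y := ContinuousLinearMap.snd ℝ ℝ ℝ with hy
  have r1 : T = Tg (mat 0 1 1 0 (by norm_num)) := by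
    ext p
    simp only [T, Tg, Function.comp, mat_apply, zero_mul, one_mul, zero_add, add_zero]
    rw [max_comm p.1, min_comm p.1]
  have r2 : T = Tg (mat (-1) 0 (-1) 1 (by norm_num)) + (2:ℝ) • L x := by
    ext p
    change max 0 (max p.1 p.2) + min 0 (min p.1 p.2) =
      (max 0 (max (-1 * p.1 + 0 * p.2) (-1 * p.1 + 1 * p.2)) +
        min 0 (min (-1 * p.1 + 0 * p.2) (-1 * p.1 + 1 * p.2))) + 2 * p.1
    simp only [max_def, min_def]
    split_ifs <;> linarith
  have r3 : T + (1 / 2 : ℝ) • (L x + L y) = Tg (mat 1 0 (1 / 2) (1 / 2) (by norm_num)) +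
      Tg (mat (1 / 2) (1 / 2) 0 1 (by norm_num)) := by
    ext p
    change max 0 (max p.1 p.2) + min 0 (min p.1 p.2) + 1 / 2 * (p.1 + p.2) =
      (max 0 (max (1 * p.1 + 0 * p.2) (1 / 2 * p.1 + 1 / 2 * p.2)) +
        min 0 (min (1 * p.1 + 0 * p.2) (1 / 2 * p.1 + 1 / 2 * p.2))) +
      (max 0 (max (1 / 2 * p.1 + 1 / 2 * p.2) (0 * p.1 + 1 * p.2)) +
        min 0 (min (1 / 2 * p.1 + 1 / 2 * p.2) (0 * p.1 + 1 * p.2)))
    rw [one_mul, one_mul, zero_mul, zero_mul, add_zero, zero_add]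
    exact key _ _ _ rfl
  have lin : ∀ a b : ℝ, P T (a, b) = a * P T (1, 0) + b * P T (0, 1) := fun a b => by
    rw [← smul_eq_mul, ← smul_eq_mul, ← map_smul, ← map_smul, ← map_add]
    congr 1
    ext <;> simp
  have s1 := congrArg (fun f => P f (1, 0)) r1
  have s2 := congrArg (fun f => P f (1, 0)) r2
  have s3 := congrArg (fun f => P f (1, 0)) r3
  simp only [map_add, map_smul, add_apply, smul_apply, e, l, mat_apply, hx, hy,
    ContinuousLinearMap.coe_fst', ContinuousLinearMap.coe_snd', smul_eq_mul] at s1 s2 s3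
  rw [lin (_ + _)] at s1 s2 s3
  rw [lin (_ + _)] at s3
  linarith

end Pool.Agent.Results.MP_6bd626_an.GL2
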